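import Pool.Agent.H7.ST.Defs
import Pool.Agent.H7.ST.G
import Pool.Agent.H7.ST.H
import Pool.Agent.H7.ST.W4

/-! Stable fields have dimension at most one at every valuation and every absolute value;
consequences for function fields. -/

set_option autoImplicit false

namespace Pool.Agent.Results.MP_9924a2_lc.StableValued

open Pool.Agent.H7.ST

universe u v w

/-- Let `K` be an infinite stable field and `L` a finite extension of `K`. For every nontrivial
valuation `w` on `L`, with residue field `k`: for every irreducible `f` over `k` of degree `d`
every value of `w` is a `d`-th power of a value and the norm from `k[X]/(f)` to `k` is surjective;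
for every prime `l` different from the characteristic the value group modulo `l`-th powers is
cyclic. For every complete field `M` (with respect to a nontrivial absolute value) in which `L` is
dense, and every finite separable extension `N` of `M`, the norm from `N` to `M` is surjective.
Hence a finite extension of a rational function field `F(t)` is unstable unless the algebraic
closure of `F` is finite over `F`, and no finite extension of `F(s)(t)` is stable. -/
theorem result :
    (∀ (K : Type u) [Field K] [Infinite K] [FirstOrder.Ring.CompatibleRing K], StableField K →
      ∀ (L : Type v) [Field L] [Algebra K L] [FiniteDimensional K L],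
        (∀ (Γ : Type w) [LinearOrderedCommGroupWithZero Γ] (w : Valuation L Γ),
          (∃ x : L, x ≠ 0 ∧ w x ≠ 1) → UnramifiedNorms w ∧ CyclicModPrimes w) ∧
        (∀ (M : Type w) [NontriviallyNormedField M] [CompleteSpace M] [Algebra L M],
          DenseRange (algebraMap L M) → SurjectiveNorms M)) ∧
    (∀ (F : Type u) [Field F] (K : Type v) [Field K] [Algebra (RatFunc F) K]
      [FiniteDimensional (RatFunc F) K] [FirstOrder.Ring.CompatibleRing K],
      StableField K → FiniteDimensional F (AlgebraicClosure F)) ∧
    (∀ (F : Type u) [Field F] (K : Type v) [Field K] [Algebra (RatFunc (RatFunc F)) K]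
      [FiniteDimensional (RatFunc (RatFunc F)) K] [FirstOrder.Ring.CompatibleRing K],
      ¬ StableField K) := by
  refine ⟨?_, ?_, ?_⟩
  · intro K _ _ _ hK L _ _ _
    letI := FirstOrder.Ring.compatibleRingOfRing L
    have hL : StableField L := stable_finite hK
    haveI : Infinite L := Infinite.of_injective _ (algebraMap K L).injective
    refine ⟨?_, ?_⟩
    · intro Γ _ w hw
      exact ⟨fun f hf => ⟨F_value hL w hw f hf, F_norm hL w hw f hf⟩,
        fun l hl hlK a b ha hb => F_rank hL w hl hlK a b ha hb⟩
    · intro M _ _ _ hM N _ _ _ _ b
      exact W4_complete hL hM b
  · intro F _ K _ _ _ _ hK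
    exact G_main F K hK
  · intro F _ K _ _ _ _
    exact G_two F K

end Pool.Agent.Results.MP_9924a2_lc.StableValued
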