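import Pool.Agent.H43.SW.Mn

/-! Iterated wreath products as Galois groups over finite extensions of Galois extensions of an
infinite stable field. -/

set_option autoImplicit false

namespace Pool.Agent.Results.MP_9924a2_lc.WreathTower

open Pool.Agent.H7.ST

universe u

/-- Let `K` be an infinite stable field, `M` a Galois extension of `K` (finite or infinite, for
example `M = K`) and `p` a prime which is not zero in `K` and divides the degree of some finite
separable extension `E₀` of `M`. Then there is a finite separable extension `F` of `M` such that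
for every `m` the Sylow `p`-subgroup of the symmetric group of degree `p ^ m` (the `m`-fold iterated
wreath product of cyclic groups of order `p`) is the Galois group of an extension of `F`. -/
theorem result (K : Type u) [Field K] [FirstOrder.Ring.CompatibleRing K] [Infinite K]
    (hK : StableField K) (M : Type u) [Field M] [Algebra K M] [IsGalois K M] (p : ℕ)
    (hp : p.Prime) (hpK : (p : K) ≠ 0) (E₀ : Type u) [Field E₀] [Algebra M E₀]
    [FiniteDimensional M E₀] [Algebra.IsSeparable M E₀] (hE₀ : p ∣ Module.finrank M E₀) :
    ∃ (F : Type u) (_ : Field F) (_ : Algebra M F), FiniteDimensional M F ∧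
      Algebra.IsSeparable M F ∧
      ∀ (m : ℕ) (P : Sylow p (Equiv.Perm (Fin (p ^ m)))),
        ∃ (E : Type u) (_ : Field E) (_ : Algebra F E), FiniteDimensional F E ∧
          IsGalois F E ∧ Nonempty ((E ≃ₐ[F] E) ≃* P) := by
  obtain ⟨F, i1, i2, h1, h2, h3, -⟩ :=
    Pool.Agent.H43.SW.sw_main.{u, u, 0} hK M hp hpK E₀ hE₀
  exact ⟨F, i1, i2, h1, h2, h3⟩

end Pool.Agent.Results.MP_9924a2_lc.WreathTower
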